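import Pool.Agent.Q1.FB.ImgBDA

set_option autoImplicit false

/-!
# Algebroid curves in affine varieties and polynomial maps

Let `X` be the integral closed subvariety with the ideal `I` of affine `(N+1)`-space over a countable
field `k`, `g = (g_0, ..., g_m)` a polynomial map from `X` to affine `(m+1)`-space, and `Y` the
closure of its image, with the ideal `imgA I g`.  There is no hypothesis on `X` and on the fibres of
`g` (they can contain many Zariski dense entire curves).  Suppose that `Y` is not covered by affine
curves which have a finite map of degree at most `d` to the punctured line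
(`¬ CoveredA (imgA I g) d`).

An algebroid curve of degree at most `d` over a connected open set `Ω` of the complex plane (for
example `Ω = ℂ`) is given by the coefficients `x(z)`, analytic on `Ω`, of a monic polynomial
`Pol (x z)` of degree `d` and of `N + 1` polynomials of degree less than `d`; its branches are the maps
`z ↦ Num (x z) (α z)`, where `α` is an analytic root of `Pol (x z)` and `Num (x z) (α z)` are the
values of the `N + 1` polynomials at `α(z)`.  For `d = 1` these are the holomorphic curves.  It has
complexity `(s, r, e)` (`DFam Ω s r e x`) if the components of `x` are values of polynomials of degree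
at most `e` in each variable at the entries of `X_1, X_1⁻¹, ..., X_s, X_s⁻¹`, where the `X_l` are
invertible matrices of size `r` of analytic functions with `X_l' = M_l X_l`, and the entries of `M_l`
are values of such polynomials at the entries of `X_i, X_i⁻¹`, `i < l`.

Then for all `s`, `r`, `e` there is ONE proper closed subset `X ∩ {G = 0}` of `X` over `k` such that
for all embeddings `σ` of `k` in `ℂ` and all `Ω`, ALL branches on `X` of algebroid curves of degree at
most `d` and complexity `(s, r, e)` lie in `X ∩ {G = 0}` or in a fibre of `g`.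
-/

namespace Pool.Agent.Results.MP_c69980_ag.AlgebroidCurvesAndMaps

open MvPolynomial Pool.Agent.Q1.FB Pool.Agent.Q1.BD Pool.Agent.Q1.BA

theorem result (k : Type) [Field k] [Countable k] (N m d : ℕ)
    (I : Ideal (MvPolynomial (Fin (N + 1)) k)) (hprime : I.IsPrime)
    (g : Fin (m + 1) → MvPolynomial (Fin (N + 1)) k) (hcov : ¬ CoveredA (imgA I g) d)
    (s r e : ℕ) :
    ∃ G : MvPolynomial (Fin (N + 1)) k, G ∉ I ∧
      ∀ (σ : k →+* ℂ) (Ω : Set ℂ), IsOpen Ω → IsPreconnected Ω →
        ∀ (x : ℂ → Jx N d → ℂ) (α : ℂ → ℂ), DFam Ω s r e x → AnalyticOnNhd ℂ α Ω →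
        (∀ z ∈ Ω, (Pol (x z)).eval (α z) = 0) →
        (∀ z ∈ Ω, ∀ F ∈ I, eval₂ σ (Num (x z) (α z)) F = 0) →
        (∃ z ∈ Ω, ∃ w ∈ Ω, ∃ u, eval₂ σ (Num (x z) (α z)) (g u) ≠
          eval₂ σ (Num (x w) (α w)) (g u)) →
          ∀ z ∈ Ω, eval₂ σ (Num (x z) (α z)) G = 0 :=
  img_bd_curvesA I hprime g d hcov s r e

end Pool.Agent.Results.MP_c69980_ag.AlgebroidCurvesAndMaps
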