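import Pool.Agent.Q80.HC.Cond

/-!
MP_c69980_ag, Q1: the conditions 2, 3, 4, 5 hold for the affine varieties with a generically finite
morphism to the projective space of the binary forms of degree `n` which is ramified, to any order, for
instance to the order two, over the hyperplanes of the forms which vanish at given points of the
projective line. The number of points which is needed is linear in `n`: more than `4 n` for the order
two, and more than `2 n` if the hyperplanes are not met.

`U = Spec A` is an affine variety, with any singularities, and `h 0, …, h n` are regular functions on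
`U` without common zeros; they define a morphism from `U` to the projective space of the forms
`∑ l, h l * X ^ (n - l) * Y ^ l`. `discForm ℂ n` is the discriminant of this form (up to the factor
`h n`).

Definitions: `RamA`, `GenFinA` (`Q80/HC/Aff.lean`): ramification, generic finiteness onto the image;
`discForm` (`Y216/RncD.lean`); `BrodyModulo` (`Q80/HC/Brody.lean`): all entire curves in `U` lie in
`V(J)`; `FinitePointedMaps`, `BoundedModulo` (`Y193/Defs.lean`): the conditions 3 and 5;
`LogGeneralType` (`W602/GT/Defs.lean`): condition 4, where the boundary consists of the places at which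
some function on `U` has a pole.
-/

set_option autoImplicit false

namespace Pool.Agent.Results.MP_c69980_ag.BinaryFormCoverConditions

open MvPolynomial Pool.Agent.Y216 Pool.Agent.Y193 Pool.Agent.Q80.HC
open Pool.Agent.W602.GT (LogGeneralType)

/-- Let `n ≥ 1`, let `(u i : v i)`, `i < q`, be distinct points of the projective line, and let `m i` be
natural numbers (`m i = 0` stands for infinity) with `2 * n < ∑ i, (1 - 1 / m i)`. Let `U = Spec A` be an
affine variety and let `h` define a morphism from `U` to the projective space of the binary forms of
degree `n`, which is ramified to order at least `m i` over the hyperplane of the forms which vanish at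
`(u i : v i)`, for all `i`, and misses the hyperplane if `m i = 0`.

* If the morphism is generically finite onto its image and the image is not contained in one of these
  hyperplanes, in the hyperplane `h n = 0` or in the discriminant hypersurface, then there is a proper
  closed subset `V(J)` of `U` such that all entire curves in `U` lie in `V(J)`; for all varieties `Y`,
  points `y` of `Y` and points `x` of `U` outside `V(J)` there are only finitely many morphisms from `Y`
  to `U` which map `y` to `x`; and `U` is bounded modulo `V(J)`.
* If `U` is of dimension `n` and the morphism is dominant, then `U` is moreover of log general type: the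
  conditions 2, 3, 4 and 5 hold. -/
theorem result {n : ℕ} (hn : 1 ≤ n) {q : ℕ} (u v : Fin q → ℂ)
    (huv : ∀ i j, i ≠ j → u i * v j ≠ u j * v i) (m : Fin q → ℕ)
    (hsum : 2 * (n : ℝ) < ∑ i, (if m i = 0 then (1 : ℝ) else 1 - 1 / (m i : ℝ)))
    (A : Type) [CommRing A] [IsDomain A] [Algebra ℂ A] [Algebra.FiniteType ℂ A]
    (h : Fin (n + 1) → A)
    (hR : RamA h (fun i (l : Fin (n + 1)) => u i ^ (n - (l : ℕ)) * v i ^ (l : ℕ)) m) :
    (GenFinA h →
      (∀ i, ∑ l : Fin (n + 1), algebraMap ℂ A (u i ^ (n - (l : ℕ)) * v i ^ (l : ℕ)) * h l ≠ 0) →
      h (Fin.last n) ≠ 0 → aeval h (discForm ℂ n) ≠ 0 →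
      ∃ J : Ideal A, J ≠ ⊥ ∧ BrodyModulo A J ∧ FinitePointedMaps A J ∧ BoundedModulo A J) ∧
    (h 0 ≠ 0 →
      IsTranscendenceBasis ℂ (fun j : Fin n =>
        algebraMap A (FractionRing A) (h j.succ) / algebraMap A (FractionRing A) (h 0)) →
      (∃ J : Ideal A, J ≠ ⊥ ∧ BrodyModulo A J ∧ FinitePointedMaps A J ∧ BoundedModulo A J) ∧
        LogGeneralType ℂ (FractionRing A) n
          (fun P => ∃ f : A, algebraMap A (FractionRing A) f ≠ 0 ∧
            P.ord (algebraMap A (FractionRing A) f) < 0)) := by
  have hsum' : 2 * (n : ℝ) < ∑ i, wt (m i) := hsum
  obtain ⟨B, hB⟩ := ineqS_rnc hn huv hsum'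
  have hE := ineqE_rnc hn huv hsum'
  have h4 : (1 : ℝ) ≤ n := by exact_mod_cast hn
  refine ⟨fun hfin hne hlast hdisc => conds hB hE hR hfin hne ?_, fun h0 hb =>
    conds_dominant hB hE (rnc_genPos huv) (by linarith)
      (mul_ne_zero (X_ne_zero _) (discForm_ne hn))
      ((isHomogeneous_X _ _).mul discForm_homogeneous) hR h0 hb⟩
  rw [map_mul, aeval_X]
  exact mul_ne_zero hlast hdisc

end Pool.Agent.Results.MP_c69980_ag.BinaryFormCoverConditions
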