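import Pool.Agent.Q58.LG.AffL

/-!
MP_c69980_ag, Q1: the conditions 3, 4 and 5 hold for the affine varieties which correspond properly,
in small degree, to subvarieties of generic pairs.

Let `k` be a subfield of the complex numbers, with algebraic closure `k'` in `ℂ`. Let `V` be a closed
subset of `ℙⁿ`, defined over `k'`, of dimension at most `m`, and let `F_a` be finitely many forms
over `ℂ` of degrees `d_a`, whose coefficients are all together algebraically independent over `k`
(this holds for very general forms, if `k` is countable). Let `C` be a set of indices. Let `X₀` be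
the intersection of `V` with the hypersurfaces `F_c = 0`, `c ∈ C`, and `D₀` the union of the
hypersurfaces `F_b = 0`, `b ∉ C`.

Let `U = Spec B` be an affine variety over `ℂ`, with function field `L`. Let `K'` be an extension of
`L` of degree at most `r`, and let `y` be a point of `X₀` over `K'`, such that `K'` is algebraic over
the field generated by the ratios of the coordinates of `y`. The closure `Γ` of the point `y` in
`U × ℙⁿ` is a correspondence: it is proper and generically finite over `U`, of degree at most `r`, and
generically finite over its image in `X₀`, of any degree. The dimension of `U` is arbitrary, and the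
image of `Γ` in `X₀` is an arbitrary subvariety. We suppose that `Γ` does not meet `U × D₀`. For
`r = 1` this says that there are a proper birational morphism `U' → U` and a morphism
`U' → X₀ ∖ D₀`, generically finite onto its image. In general `U` has no morphism to `X₀`, the fibres
of `Γ → U` can have positive dimension, and there are no conditions on the singularities and on the
branch loci.

* If `2 m + 2 r ≤ ∑ d_a + |C| + 1`, then there is a proper closed subset `Δ = V(J)` of `U` such that
  `U` is bounded modulo `Δ` and such that there are only finitely many morphisms from `Y` to `U`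
  which map `y` to `x`, for all varieties `Y`, points `y` of `Y` and points `x` of `U` outside `Δ`.
* If `U` is of dimension `w ≥ 1` and `2 m + 2 r ≤ ∑ d_a + |C| + w`, then `U` is of log general type.

So the conditions 3, 4, 5 hold together if `dim U ≥ 1` and `2 m + 2 r ≤ ∑ d_a + |C| + 1`.

The proof: the correspondence is spread out; along a morphism from an affine curve to `U`, not
contained in `Δ`, it gives an extension of the function field of the curve of degree at most `r`, a
point of `X₀` over it, which is off `D₀` over the affine curve by the Nullstellensatz, and the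
functions on `U` have height at most a constant times the height of this point, which is bounded by
the Euler characteristic. For condition 4, traces of canonical forms with logarithmic poles.

The definitions are in `Pool/Agent/Y193/Defs.lean` (`BoundedModulo`, `FinitePointedMaps`),
`Pool/Agent/W602/GT/Defs.lean` (`LogGeneralType`), `Pool/Agent/W602/GT/SpDefs.lean` (`coords`, `val`),
`Pool/Agent/TH145/MG/Dim.lean` (`DimLE`), `Pool/Agent/Q58/FI/Eqs.lean` (`eqs V F`, the equations of
`V` together with the forms `F_c`) and `Pool/Agent/Q58/LG/AffB.lean` (`InClosureA`).
-/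

set_option autoImplicit false

namespace Pool.Agent.Results.MP_c69980_ag.CorrespondingPairs

open MvPolynomial FF
open Pool.Agent.TH145.MG (DimLE)
open Pool.Agent.W602.GT (LogGeneralType val coords)
open Pool.Agent.Q58.FI (eqs)
open Pool.Agent.Q58.LG (InClosureA)
open Pool.Agent.Y193 (BoundedModulo FinitePointedMaps)

theorem result {k : Type} [Field k] [Algebra k ℂ] {n m r : ℕ}
    -- a closed subset of projective space, of dimension at most `m`
    (V : Set (MvPolynomial (Fin (n + 1)) (algebraicClosure k ℂ)))
    (hVh : ∀ f ∈ V, ∃ e, f.IsHomogeneous e) (hV : DimLE (algebraicClosure k ℂ) V m)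
    -- forms of degrees `d a`, whose coefficients are algebraically independent over `k`; the forms
    -- with indices in `C` are equations, the others give the boundary
    {A : Type} [Fintype A] (d : A → ℕ) (C : Finset A)
    (F : A → MvPolynomial (Fin (n + 1)) ℂ) (hF : ∀ a, (F a).IsHomogeneous (d a))
    (hgen : AlgebraicIndependent k
      fun p : (a : A) × {I : Fin (n + 1) →₀ ℕ // I.degree = d a} => (F p.1).coeff p.2.1)
    -- the ring of functions and the function field of an affine variety `U`
    (B : Type) [CommRing B] [IsDomain B] [Algebra ℂ B] [Algebra.FiniteType ℂ B]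
    (L : Type) [Field L] [Algebra ℂ L] [Algebra B L] [IsScalarTower ℂ B L] [IsFractionRing B L]
    -- a point of the intersection over an extension of degree at most `r`, generically finite onto
    -- its image
    (K' : Type) [Field K'] [Algebra ℂ K'] [Algebra B K'] [Algebra L K'] [IsScalarTower ℂ L K']
    [IsScalarTower B L K'] [FiniteDimensional L K'] (hr : Module.finrank L K' ≤ r)
    (y : Fin (n + 1) → K') (hy : y ≠ 0)
    (hyX : ∀ e, val y (eqs V (fun c : {a // a ∈ C} => F c.1) e) = 0)
    (halg : Algebra.IsAlgebraic (coords ℂ y) K')
    -- the correspondence does not meet the boundary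
    (hbd : ∀ b, b ∉ C → ∀ (φ : B →ₐ[ℂ] ℂ) (p : Fin (n + 1) → ℂ), InClosureA B y φ p →
      eval p (F b) ≠ 0) :
    (2 * m + 2 * r ≤ ∑ a, d a + C.card + 1 →
      ∃ J : Ideal B, J ≠ ⊥ ∧ FinitePointedMaps B J ∧ BoundedModulo B J) ∧
    ∀ w : ℕ, 1 ≤ w → Algebra.trdeg ℂ L = w → 2 * m + 2 * r ≤ ∑ a, d a + C.card + w →
      LogGeneralType ℂ L w fun P : Place ℂ L =>
        ∃ b : B, algebraMap B L b ≠ 0 ∧ P.ord (algebraMap B L b) < 0 := by
  refine ⟨fun hd => ?_, fun w hw htr hd =>
    Pool.Agent.Q58.LG.lgt_corr C hVh hV hw hd hF hgen hr hy hyX halg hbd htr⟩
  obtain ⟨J, hJ, hB⟩ := Pool.Agent.Q58.LG.bounded_corr C hVh hV hd hF hgen hr hy hyX halg hbd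
  exact ⟨J, hJ, Pool.Agent.Y193.finite_of_pointed (Pool.Agent.Y193.pointed_of_bounded hB), hB⟩

end Pool.Agent.Results.MP_c69980_ag.CorrespondingPairs
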