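import Pool.Agent.Q80.HC.Cond

/-!
MP_c69980_ag, Q1: the conditions 2, 3, 4, 5 hold for the affine varieties with a generically finite
morphism to a projective space which is ramified over sufficiently many general hyperplanes, to any
order, for instance to the order two.

`U = Spec A` is an affine variety, with any singularities, and `h 0, …, h n` are regular functions on
`U` without common zeros; they define a morphism from `U` to projective `n`-space.

Definitions: `RamA`, `GenFinA` (`Q80/HC/Aff.lean`): ramification, generic finiteness onto the image;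
`BrodyModulo` (`Q80/HC/Brody.lean`): all entire curves in `U` lie in `V(J)`; `FinitePointedMaps`,
`BoundedModulo` (`Y193/Defs.lean`): the conditions 3 and 5; `LogGeneralType` (`W602/GT/Defs.lean`):
condition 4, where the boundary consists of the places at which some function on `U` has a pole; `Ind`
(`W601/VF/Arr.lean`): the points impose independent conditions on the forms of degree `d`; `GenPos`
(`Y216/Defs.lean`): general position.
-/

set_option autoImplicit false

namespace Pool.Agent.Results.MP_c69980_ag.HyperplaneCoverConditions

open MvPolynomial Pool.Agent.Y216 Pool.Agent.W601.VF Pool.Agent.Y193 Pool.Agent.Q80.HC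
open Pool.Agent.W602.GT (LogGeneralType)

/-- Let `n ≥ 1`.

(1) Let `a i`, `i < q`, be linear forms in `n + 1` variables which, as points of the dual space, impose
independent conditions on the forms of degree `d`, and let `m i` be natural numbers (`m i = 0` stands
for infinity) with `2 * C(n + d - 1, n - 1) < ∑ i, (1 - 1 / m i)`. Let `U = Spec A` be an affine variety
and let `h` define a morphism from `U` to projective `n`-space, which is ramified to order at least
`m i` over the hyperplane `a i = 0`, for all `i`, and misses the hyperplane if `m i = 0`.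

* If the morphism is generically finite onto its image and the image is not contained in one of the
  hyperplanes, then there is a proper closed subset `V(J)` of `U` such that all entire curves in `U` lie
  in `V(J)`; for all varieties `Y`, points `y` of `Y` and points `x` of `U` outside `V(J)` there are only
  finitely many morphisms from `Y` to `U` which map `y` to `x`; and `U` is bounded modulo `V(J)`.
* If the hyperplanes are in general position, `U` is of dimension `n` and the morphism is dominant,
  then `U` is moreover of log general type: the conditions 2, 3, 4 and 5 hold.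

(2) If `q > C(5 n, n)`, there is a number `d` such that all `q`-tuples `a` of linear forms outside a
proper Zariski closed subset satisfy the conditions in (1), for all `m i ≠ 1`. -/
theorem result (n : ℕ) (hn : 1 ≤ n) :
    (∀ (d q : ℕ) (a : Fin q → Fin (n + 1) → ℂ) (m : Fin q → ℕ), Ind d a →
      2 * (((n + d - 1).choose (n - 1) : ℕ) : ℝ) <
        ∑ i, (if m i = 0 then (1 : ℝ) else 1 - 1 / (m i : ℝ)) →
      ∀ (A : Type) [CommRing A] [IsDomain A] [Algebra ℂ A] [Algebra.FiniteType ℂ A]
        (h : Fin (n + 1) → A), RamA h a m →
        (GenFinA h → (∀ i, ∑ j, algebraMap ℂ A (a i j) * h j ≠ 0) →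
          ∃ J : Ideal A, J ≠ ⊥ ∧ BrodyModulo A J ∧ FinitePointedMaps A J ∧ BoundedModulo A J) ∧
        (GenPos a → h 0 ≠ 0 →
          IsTranscendenceBasis ℂ (fun j : Fin n =>
            algebraMap A (FractionRing A) (h j.succ) / algebraMap A (FractionRing A) (h 0)) →
          (∃ J : Ideal A, J ≠ ⊥ ∧ BrodyModulo A J ∧ FinitePointedMaps A J ∧ BoundedModulo A J) ∧
            LogGeneralType ℂ (FractionRing A) n
              (fun P => ∃ f : A, algebraMap A (FractionRing A) f ≠ 0 ∧
                P.ord (algebraMap A (FractionRing A) f) < 0))) ∧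
    (∀ q : ℕ, (5 * n).choose n < q → ∃ d : ℕ, ∃ Ψ : MvPolynomial (Fin q × Fin (n + 1)) ℂ, Ψ ≠ 0 ∧
      ∀ a : Fin q → Fin (n + 1) → ℂ, eval (fun x => a x.1 x.2) Ψ ≠ 0 → Ind d a ∧ GenPos a ∧
        ∀ m : Fin q → ℕ, (∀ i, m i ≠ 1) →
          2 * (((n + d - 1).choose (n - 1) : ℕ) : ℝ) <
            ∑ i, (if m i = 0 then (1 : ℝ) else 1 - 1 / (m i : ℝ))) := by
  refine ⟨?_, fun q hq => generic_wt n hn q hq⟩
  intro d q a m ha hsum A _ _ _ _ h hR
  have hsum' : 2 * (((n + d - 1).choose (n - 1) : ℕ) : ℝ) < ∑ i, wt (m i) := hsum
  obtain ⟨B, hB⟩ := ineqS_general hn ha hsum'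
  have hE := ineqE_general hn ha hsum'
  refine ⟨fun hfin hne => conds hB hE hR hfin hne (by rw [map_one]; exact one_ne_zero),
    fun hpos h0 hb => conds_dominant hB hE hpos ?_ one_ne_zero (isHomogeneous_one _ _) hR h0 hb⟩
  obtain ⟨d', rfl⟩ := pos_degree ha (fun i => wt_le (m i)) hsum' hn
  refine lt_of_le_of_lt ?_ hsum'
  have h1 : n ≤ (n + (d' + 1) - 1).choose (n - 1) := by
    have h2 : n.choose (n - 1) ≤ (n + (d' + 1) - 1).choose (n - 1) :=
      Nat.choose_le_choose _ (by omega)
    rwa [Nat.choose_symm (by omega : 1 ≤ n), Nat.choose_one_right] at h2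
  have h3 : (n : ℝ) ≤ (((n + (d' + 1) - 1).choose (n - 1) : ℕ) : ℝ) := by exact_mod_cast h1
  have h4 : (1 : ℝ) ≤ n := by exact_mod_cast hn
  linarith

end Pool.Agent.Results.MP_c69980_ag.HyperplaneCoverConditions
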